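import Pool.Agent.HUK.StmtsA

/-! Row BRT of squad HUK. -/

set_option autoImplicit false

namespace Pool.Agent.HUK.H5

/-- `i` primes in `(n, 2 ^ i n]`. -/
theorem exists_primes (n : ℕ) (hn : 1 ≤ n) (i : ℕ) :
    ∃ s : Finset ℕ, s.card = i ∧ ∀ p ∈ s, p.Prime ∧ n < p ∧ p ≤ 2 ^ i * n := by
  induction i with
  | zero => exact ⟨∅, rfl, by simp⟩
  | succ i ih =>
    obtain ⟨s, hs, hp⟩ := ih
    have h0 : 2 ^ i * n ≠ 0 := by positivity
    obtain ⟨p, hpp, hlt, hle⟩ := Nat.exists_prime_lt_and_le_two_mul (2 ^ i * n) h0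
    have hns : p ∉ s := fun h => absurd (hp p h).2.2 (not_le.mpr hlt)
    have h1 : n ≤ 2 ^ i * n := Nat.le_mul_of_pos_left n (by positivity)
    refine ⟨insert p s, by rw [Finset.card_insert_of_notMem hns, hs], ?_⟩
    intro x hx
    rcases Finset.mem_insert.mp hx with rfl | hx
    · exact ⟨hpp, lt_of_le_of_lt h1 hlt, by rw [pow_succ]; linarith⟩
    · obtain ⟨a, b, c⟩ := hp x hx
      exact ⟨a, b, c.trans (Nat.mul_le_mul_right n (Nat.pow_le_pow_right (by norm_num) (by omega)))⟩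

theorem brt : BrtStmt := by
  intro n j N hn hN hle
  by_contra hcon
  push Not at hcon
  obtain ⟨s, hs, hp⟩ := exists_primes n hn (j + 1)
  have hdvd : ∀ p ∈ s, p ∣ N.natAbs := by
    intro p hps
    obtain ⟨a, b, c⟩ := hp p hps
    exact Int.natCast_dvd.mp (hcon p a b c)
  have hprod : (∏ p ∈ s, p) ∣ N.natAbs :=
    Finset.prod_primes_dvd N.natAbs (fun p hps => (hp p hps).1.prime) hdvd
  have hle2 : (∏ p ∈ s, p) ≤ N.natAbs :=
    Nat.le_of_dvd (Int.natAbs_pos.mpr hN) hprod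
  have hge : (n + 1) ^ s.card ≤ ∏ p ∈ s, p := by
    rw [← Finset.prod_const]
    exact Finset.prod_le_prod' (fun p hps => (hp p hps).2.1)
  rw [hs] at hge
  have hN2 : N.natAbs ≤ n ^ j := by
    have : (N.natAbs : ℤ) ≤ (n : ℤ) ^ j := by rw [Int.natCast_natAbs]; exact hle
    exact_mod_cast this
  have h3 : (n + 1) ^ (j + 1) ≤ n ^ j := hge.trans (hle2.trans hN2)
  have h4 : n ^ j ≤ (n + 1) ^ j := Nat.pow_le_pow_left (by omega) j
  have h5 : (n + 1) ^ j < (n + 1) ^ (j + 1) := Nat.pow_lt_pow_right (by omega) (by omega)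
  omega

end Pool.Agent.HUK.H5
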